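import Pool.Agent.N784.CZ.StmE
import Pool.Agent.N784.CZ.Ell

/-!
# Growth of Hecke L-functions in vertical strips
-/

set_option autoImplicit false
set_option linter.unusedSectionVars false

open NumberField Complex MeasureTheory Set

namespace Pool.Agent.N603.CZ

theorem norm_Gamma_le {z : ℂ} (hz : 0 < z.re) : ‖Complex.Gamma z‖ ≤ Real.Gamma z.re := by
  rw [Complex.Gamma_eq_integral hz, Real.Gamma_eq_integral hz]
  unfold Complex.GammaIntegral
  refine (norm_integral_le_integral_norm _).trans (le_of_eq ?_)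
  refine setIntegral_congr_fun measurableSet_Ioi (fun t ht => ?_)
  have ht' : (0 : ℝ) < t := ht
  simp only [norm_mul]
  rw [Complex.norm_cpow_eq_rpow_re_of_pos ht', Complex.norm_real, Real.norm_eq_abs,
    abs_of_pos (Real.exp_pos _)]
  simp

theorem norm_sin_le (z : ℂ) : ‖Complex.sin z‖ ≤ Real.exp |z.im| := by
  unfold Complex.sin
  rw [norm_div, norm_mul, Complex.norm_I, mul_one]
  have h1 : ‖Complex.exp (-z * Complex.I) - Complex.exp (z * Complex.I)‖ ≤
      Real.exp |z.im| + Real.exp |z.im| := by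
    refine (norm_sub_le _ _).trans ?_
    rw [Complex.norm_exp, Complex.norm_exp]
    refine add_le_add (Real.exp_le_exp.mpr ?_) (Real.exp_le_exp.mpr ?_)
    · have : (-z * Complex.I).re = z.im := by simp
      rw [this]; exact le_abs_self _
    · have : (z * Complex.I).re = -z.im := by simp
      rw [this]; exact neg_le_abs _
  have h2 : ‖(2 : ℂ)‖ = 2 := by norm_num
  rw [h2]
  linarith

/-- left half plane -/
theorem inv_Gamma_left {z : ℂ} (hz : z.re < 1) :
    ‖(Complex.Gamma z)⁻¹‖ ≤ Real.Gamma (1 - z.re) * Real.exp (Real.pi * |z.im|) := by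
  have hG := Real.Gamma_pos_of_pos (s := 1 - z.re) (by linarith)
  by_cases hne : Complex.Gamma z = 0
  · rw [hne, inv_zero, norm_zero]
    positivity
  have hR := Complex.Gamma_mul_Gamma_one_sub z
  have hpi : (Real.pi : ℂ) ≠ 0 := by exact_mod_cast Real.pi_ne_zero
  have h1ne : Complex.Gamma (1 - z) ≠ 0 := Complex.Gamma_ne_zero_of_re_pos (by simp; linarith)
  have hsin : Complex.sin (Real.pi * z) ≠ 0 := by
    intro h
    rw [h, div_zero] at hR
    exact mul_ne_zero hne h1ne hR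
  have hinv : (Complex.Gamma z)⁻¹ =
      Complex.Gamma (1 - z) * Complex.sin (Real.pi * z) / Real.pi := by
    rw [inv_eq_iff_eq_inv, inv_div, eq_div_iff (mul_ne_zero h1ne hsin), ← mul_assoc, hR]
    field_simp
  rw [hinv, norm_div, norm_mul]
  have h1 := norm_Gamma_le (z := 1 - z) (by simp; linarith)
  have h2 := norm_sin_le (Real.pi * z)
  have e1 : (1 - z).re = 1 - z.re := by simp
  have e2 : ((Real.pi : ℂ) * z).im = Real.pi * z.im := by simp
  rw [e1] at h1
  rw [e2, abs_mul, abs_of_pos Real.pi_pos] at h2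
  have h3 : (1 : ℝ) ≤ ‖(Real.pi : ℂ)‖ := by
    rw [Complex.norm_real, Real.norm_of_nonneg Real.pi_pos.le]
    linarith [Real.pi_gt_three]
  refine (div_le_self (by positivity) h3).trans ?_
  exact mul_le_mul h1 h2 (norm_nonneg _) hG.le

theorem inv_Gamma_strip (A : ℝ) (hA : A ≤ -1 / 2) (k : ℕ) : ∃ M : ℝ, 0 ≤ M ∧ ∀ z : ℂ,
    A ≤ z.re → z.re ≤ 1 / 2 + k → ‖(Complex.Gamma z)⁻¹‖ ≤ M * Real.exp (Real.pi * |z.im|) := by
  induction k with
  | zero =>
    obtain ⟨M, hM⟩ := (isCompact_Icc (a := (1 / 2 : ℝ)) (b := 1 - A)).exists_bound_of_continuousOn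
      (f := Real.Gamma) (fun x hx => (Real.differentiableAt_Gamma (fun m => by
        have := hx.1
        have h2 : (0 : ℝ) ≤ m := Nat.cast_nonneg m
        linarith)).continuousAt.continuousWithinAt)
    have hM0 : 0 ≤ M := (norm_nonneg _).trans (hM (1 / 2) (by constructor <;> linarith))
    refine ⟨M, hM0, fun z h1 h2 => ?_⟩
    norm_num at h2
    refine (inv_Gamma_left (by linarith)).trans ?_
    have h3 := hM (1 - z.re) ⟨by linarith, by linarith⟩
    have h4 := (le_abs_self _).trans h3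
    exact mul_le_mul_of_nonneg_right h4 (Real.exp_pos _).le
  | succ k ih =>
    obtain ⟨M, hM0, hM⟩ := ih
    obtain ⟨M2, hM2⟩ := ((isCompact_Icc (a := A) (b := 1 / 2 + (k + 1 : ℕ))).reProdIm
      (isCompact_Icc (a := (-1 : ℝ)) (b := 1))).exists_bound_of_continuousOn
      (f := fun z : ℂ => (Complex.Gamma z)⁻¹)
      (Complex.differentiable_one_div_Gamma.continuous.continuousOn)
    refine ⟨max M M2, le_max_of_le_left hM0, fun z h1 h2 => ?_⟩
    have hk : (0 : ℝ) ≤ k := Nat.cast_nonneg k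
    have hmM : M * Real.exp (Real.pi * |z.im|) ≤ max M M2 * Real.exp (Real.pi * |z.im|) :=
      mul_le_mul_of_nonneg_right (le_max_left _ _) (Real.exp_pos _).le
    rcases le_total z.re (1 / 2 + k) with h3 | h3
    · exact (hM z h1 h3).trans hmM
    rcases le_total |z.im| 1 with h4 | h4
    · have h5 := hM2 z (by
        rw [Complex.mem_reProdIm]
        exact ⟨⟨h1, h2⟩, abs_le.1 h4⟩)
      refine h5.trans ((le_max_right M M2).trans ?_)
      refine le_mul_of_one_le_right (le_max_of_le_left hM0) ?_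
      exact Real.one_le_exp (by positivity)
    · have hz : z - 1 ≠ 0 := by
        intro h0
        have h5 := congrArg Complex.im h0
        simp only [sub_im, one_im, sub_zero, zero_im] at h5
        rw [h5, abs_zero] at h4
        linarith
      have h5 := Complex.Gamma_add_one (z - 1) hz
      rw [sub_add_cancel] at h5
      have him : (z - 1).im = z.im := by simp
      have hre : (z - 1).re = z.re - 1 := by simp
      push_cast at h2
      have h6 := hM (z - 1) (by rw [hre]; linarith) (by rw [hre]; linarith)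
      rw [him] at h6
      rw [h5, mul_inv, norm_mul, norm_inv]
      have h7 : (1 : ℝ) ≤ ‖z - 1‖ := by
        have := Complex.abs_im_le_norm (z - 1)
        rw [him] at this
        exact h4.trans this
      have h8 : ‖z - 1‖⁻¹ ≤ 1 := inv_le_one_of_one_le₀ h7
      refine le_trans ?_ (h6.trans hmM)
      exact mul_le_of_le_one_left (norm_nonneg _) h8

theorem inv_GR (a : ℝ) (ha : 0 ≤ a) : ∃ C : ℝ, 0 ≤ C ∧ ∀ s : ℂ, -2 ≤ s.re → s.re ≤ 6 →
    ‖(Complex.Gammaℝ (s + a))⁻¹‖ ≤ Real.exp (C * (1 + |s.im|)) := by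
  obtain ⟨k, hk⟩ := exists_nat_ge (3 + a / 2)
  obtain ⟨M, hM0, hM⟩ := inv_Gamma_strip (-1) (by norm_num) k
  have hpi1 : (1 : ℝ) ≤ Real.pi := by linarith [Real.pi_gt_three]
  set K : ℝ := Real.pi ^ ((6 + a) / 2) * M with hK
  have hK0 : 0 ≤ K := by positivity
  refine ⟨K + Real.pi, by positivity, fun s h1 h2 => ?_⟩
  rw [Complex.Gammaℝ_def, mul_inv, norm_mul]
  have hre : ((s + a) / 2).re = (s.re + a) / 2 := by simp
  have him : ((s + a) / 2).im = s.im / 2 := by simp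
  have h3 := hM ((s + a) / 2) (by rw [hre]; linarith) (by rw [hre]; linarith)
  have h4 : ‖((Real.pi : ℂ) ^ (-(s + a) / 2))⁻¹‖ ≤ Real.pi ^ ((6 + a) / 2) := by
    rw [norm_inv, Complex.norm_cpow_eq_rpow_re_of_pos Real.pi_pos, ← Real.rpow_neg Real.pi_pos.le]
    refine Real.rpow_le_rpow_of_exponent_le hpi1 ?_
    have : (-(s + a) / 2).re = -(s.re + a) / 2 := by simp
    rw [this]
    linarith
  have h5 : ‖((Real.pi : ℂ) ^ (-(s + a) / 2))⁻¹‖ * ‖(Complex.Gamma ((s + a) / 2))⁻¹‖ ≤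
      K * Real.exp (Real.pi * |s.im|) := by
    have h6 : Real.exp (Real.pi * |((s + a) / 2).im|) ≤ Real.exp (Real.pi * |s.im|) := by
      apply Real.exp_le_exp.2
      apply mul_le_mul_of_nonneg_left _ Real.pi_pos.le
      rw [him, abs_div]
      have : (0 : ℝ) ≤ |s.im| := abs_nonneg _
      rw [abs_of_pos (show (0 : ℝ) < 2 by norm_num)]
      linarith
    calc _ ≤ Real.pi ^ ((6 + a) / 2) * (M * Real.exp (Real.pi * |s.im|)) := by
          refine mul_le_mul h4 (h3.trans (mul_le_mul_of_nonneg_left h6 hM0)) (norm_nonneg _)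
            (by positivity)
      _ = _ := by rw [hK]; ring
  refine h5.trans ?_
  have h7 : K ≤ Real.exp K := by linarith [Real.add_one_le_exp K]
  calc K * Real.exp (Real.pi * |s.im|) ≤ Real.exp K * Real.exp (Real.pi * |s.im|) :=
        mul_le_mul_of_nonneg_right h7 (Real.exp_pos _).le
    _ = Real.exp (K + Real.pi * |s.im|) := (Real.exp_add _ _).symm
    _ ≤ _ := by
        apply Real.exp_le_exp.2
        have : (0 : ℝ) ≤ |s.im| := abs_nonneg _
        nlinarith [Real.pi_pos, mul_nonneg hK0 this]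

/-- a bounded function times inverse gamma factors -/
theorem growth {ι : Type} [Fintype ι] (e : ι → ℝ) (he : ∀ i, 0 ≤ e i) (c : ℂ) (m : ℂ → ℂ) (B : ℝ)
    (hB : ∀ s : ℂ, -2 ≤ s.re → s.re ≤ 6 → ‖m s‖ ≤ B) : ∃ C : ℝ, ∀ s : ℂ, -2 ≤ s.re → s.re ≤ 6 →
    ‖c * (m s * ∏ i, (Complex.Gammaℝ (s + e i))⁻¹)‖ ≤ Real.exp (C * (1 + |s.im|)) := by
  choose C hC0 hC using fun i => inv_GR (e i) (he i)
  have hB0 : 0 ≤ B := (norm_nonneg _).trans (hB 0 (by simp) (by simp))
  refine ⟨‖c‖ * B + ∑ i, C i, fun s h1 h2 => ?_⟩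
  have hcB : 0 ≤ ‖c‖ * B := by positivity
  rw [norm_mul, norm_mul, norm_prod, ← mul_assoc]
  have h3 : ∏ i, ‖(Complex.Gammaℝ (s + e i))⁻¹‖ ≤ Real.exp ((∑ i, C i) * (1 + |s.im|)) := by
    rw [Finset.sum_mul, Real.exp_sum]
    exact Finset.prod_le_prod (fun i _ => norm_nonneg _) fun i _ => hC i s h1 h2
  have h4 : ‖c‖ * ‖m s‖ ≤ Real.exp (‖c‖ * B * (1 + |s.im|)) := by
    have h5 : ‖c‖ * ‖m s‖ ≤ ‖c‖ * B := mul_le_mul_of_nonneg_left (hB s h1 h2) (norm_nonneg _)
    have h6 : ‖c‖ * B ≤ ‖c‖ * B * (1 + |s.im|) :=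
      le_mul_of_one_le_right hcB (by linarith [abs_nonneg s.im])
    have h7 := Real.add_one_le_exp (‖c‖ * B * (1 + |s.im|))
    linarith
  rw [add_mul, Real.exp_add]
  exact mul_le_mul h4 h3 (Finset.prod_nonneg fun i _ => norm_nonneg _) (Real.exp_pos _).le

open Pool.Agent.Y773 (LI reps_rp rp rp_ne_bot mm Dd mm_pos mm_mem Dd_pos Dd_mem mellin_strip_bound)
open Pool.Agent.N784.HC

/-- the L-function of a character of nonzero type, with a bound in a strip -/
theorem LI_growth {K : Type} [Field K] [NumberField K] {𝔪 : Ideal (𝓞 K)} {n : (K →+* ℂ) → ℕ}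
    {η : Ideal (𝓞 K) →*₀ ℂ} (htyp : TypK n) (hn0 : n ≠ 0) (h : IsModK 𝔪 (kp n) η) :
    ∃ (F : ℂ → ℂ) (C : ℝ), Differentiable ℂ F ∧ (∀ s : ℂ, 1 < s.re → F s = LI η s) ∧
      ∀ s : ℂ, -2 ≤ s.re → s.re ≤ 6 → ‖F s‖ ≤ Real.exp (C * (1 + |s.im|)) := by
  obtain ⟨V, hV, hfe⟩ := fam_fe K
  obtain ⟨C, hC, hmel⟩ := mellin_Ftot K
  obtain ⟨h1, h2, -⟩ := hfe (rp K) reps_rp n htyp hn0 η h.norm_le_one (mm (rp K) 𝔪) (Dd K)
    (mm_pos rp_ne_bot h.ne_bot)
    Dd_pos Dd_mem (fun c => h.per_m (rp_ne_bot c) (mm_mem _ _ c))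
  obtain ⟨B, hB⟩ := mellin_strip_bound h1 (-2) 6
  obtain ⟨C1, hC1⟩ := growth (ex n) (ex_nonneg n) (C : ℂ)⁻¹ (mellin (Ftot η n (rp K))) B hB
  refine ⟨fun s => (C : ℂ)⁻¹ * (mellin (Ftot η n (rp K)) s *
    ∏ φ : K →+* ℂ, (Complex.Gammaℝ (s + ex n φ))⁻¹), C1,
    (h2.mul (differentiable_gam (ex n))).const_mul _, fun s hs => ?_, hC1⟩
  simp only
  rw [(hmel (rp K) reps_rp n η h.norm_le_one s hs).2, Finset.prod_inv_distrib]
  unfold Gp
  have h3 := gam_ne_zero (ex_nonneg n) (s := s) (by linarith)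
  have hC' : (C : ℂ) ≠ 0 := by exact_mod_cast hC.ne'
  field_simp

open Pool.Agent.N784.CZ in
/-- F1 -/
theorem t_gro : StGro := by
  intro K _ _ n hn hn0 𝔮 hbot htop F hF
  obtain ⟨e, he, hc, hmod⟩ := modK_of hbot htop hF
  exact LI_growth (hn.fty he hc) (inf_fty hn hn0 e).ne hmod

end Pool.Agent.N603.CZ
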